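import Pool.Agent.Helper67.DO.StmtsW

/-!
# W3: positivity of `Re S`
-/

set_option autoImplicit false

namespace Pool.Agent.Helper67.DO

open scoped BigOperators Real

theorem w3_prod {α : Type} (s : Finset α) (f g : α → ℂ) (δ : ℝ) (hδ : 0 ≤ δ)
    (h1 : ∀ j ∈ s, ‖f j - g j‖ ≤ δ) (h2 : ∀ j ∈ s, ‖g j‖ ≤ 1) :
    ‖∏ j ∈ s, f j - ∏ j ∈ s, g j‖ ≤ (1 + δ) ^ s.card - 1 := by
  classical
  induction s using Finset.induction_on with
  | empty => simp
  | insert a s ha ih =>
    have h1' : ∀ j ∈ s, ‖f j - g j‖ ≤ δ := fun j hj => h1 j (Finset.mem_insert_of_mem hj)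
    have h2' : ∀ j ∈ s, ‖g j‖ ≤ 1 := fun j hj => h2 j (Finset.mem_insert_of_mem hj)
    have ih' := ih h1' h2'
    have ha1 := h1 a (Finset.mem_insert_self a s)
    have ha2 := h2 a (Finset.mem_insert_self a s)
    rw [Finset.prod_insert ha, Finset.prod_insert ha, Finset.card_insert_of_notMem ha]
    have hg : ‖∏ j ∈ s, g j‖ ≤ 1 := by
      rw [norm_prod]
      exact Finset.prod_le_one (fun j _ => norm_nonneg _) h2'
    have hfa : ‖f a‖ ≤ 1 + δ := by
      calc ‖f a‖ = ‖g a + (f a - g a)‖ := by congr 1; ring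
        _ ≤ ‖g a‖ + ‖f a - g a‖ := norm_add_le _ _
        _ ≤ 1 + δ := add_le_add ha2 ha1
    have hid : f a * ∏ j ∈ s, f j - g a * ∏ j ∈ s, g j =
        f a * (∏ j ∈ s, f j - ∏ j ∈ s, g j) + (f a - g a) * ∏ j ∈ s, g j := by ring
    rw [hid]
    calc ‖f a * (∏ j ∈ s, f j - ∏ j ∈ s, g j) + (f a - g a) * ∏ j ∈ s, g j‖
        ≤ ‖f a * (∏ j ∈ s, f j - ∏ j ∈ s, g j)‖ + ‖(f a - g a) * ∏ j ∈ s, g j‖ := norm_add_le _ _
      _ = ‖f a‖ * ‖∏ j ∈ s, f j - ∏ j ∈ s, g j‖ + ‖f a - g a‖ * ‖∏ j ∈ s, g j‖ := by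
          rw [norm_mul, norm_mul]
      _ ≤ (1 + δ) * ((1 + δ) ^ s.card - 1) + δ * 1 := by
          have h5 : 0 ≤ 1 + δ := by linarith
          exact add_le_add (mul_le_mul hfa ih' (norm_nonneg _) h5)
            (mul_le_mul ha1 hg (norm_nonneg _) hδ)
      _ = (1 + δ) ^ (s.card + 1) - 1 := by ring

theorem w3_sq (a b : ℂ) : Complex.sin a ^ 2 - Complex.sin b ^ 2 =
    Complex.sin (a - b) * Complex.sin (a + b) := by
  rw [Complex.sin_sub, Complex.sin_add]
  have h1 := Complex.sin_sq_add_cos_sq a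
  have h2 := Complex.sin_sq_add_cos_sq b
  have h3 : Complex.cos a ^ 2 = 1 - Complex.sin a ^ 2 := by rw [← h1]; ring
  have h4 : Complex.cos b ^ 2 = 1 - Complex.sin b ^ 2 := by rw [← h2]; ring
  have h5 : (Complex.sin a * Complex.cos b - Complex.cos a * Complex.sin b) *
      (Complex.sin a * Complex.cos b + Complex.cos a * Complex.sin b) =
      Complex.sin a ^ 2 * Complex.cos b ^ 2 - Complex.cos a ^ 2 * Complex.sin b ^ 2 := by ring
  rw [h5, h3, h4]
  ring

theorem w3_sin_norm (x y : ℝ) : ‖Complex.sin ((x : ℂ) + (y : ℂ) * Complex.I)‖ ≤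
    Real.cosh y + |Real.sinh y| := by
  rw [Complex.sin_add_mul_I]
  have h1 : ‖Complex.sin (x : ℂ) * Complex.cosh (y : ℂ)‖ ≤ Real.cosh y := by
    rw [norm_mul, ← Complex.ofReal_sin, ← Complex.ofReal_cosh, Complex.norm_real,
      Complex.norm_real, Real.norm_eq_abs, Real.norm_eq_abs, abs_of_pos (Real.cosh_pos y)]
    have := Real.abs_sin_le_one x
    have h0 := (Real.cosh_pos y).le
    nlinarith
  have h2 : ‖Complex.cos (x : ℂ) * Complex.sinh (y : ℂ) * Complex.I‖ ≤ |Real.sinh y| := by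
    rw [norm_mul, norm_mul, Complex.norm_I, mul_one, ← Complex.ofReal_cos, ← Complex.ofReal_sinh,
      Complex.norm_real, Complex.norm_real, Real.norm_eq_abs, Real.norm_eq_abs]
    have := Real.abs_cos_le_one x
    have h0 := abs_nonneg (Real.sinh y)
    nlinarith
  exact le_trans (norm_add_le _ _) (add_le_add h1 h2)

theorem w3_sn (w : ℂ) : ‖sn w - ((Real.sin (π * w.re) ^ 2 : ℝ) : ℂ)‖ ≤
    |Real.sinh (π * w.im)| * (Real.cosh (π * w.im) + |Real.sinh (π * w.im)|) := by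
  have h1 : ((Real.sin (π * w.re) ^ 2 : ℝ) : ℂ) = Complex.sin (π * (w.re : ℂ)) ^ 2 := by
    push_cast
    rfl
  rw [h1]
  unfold sn
  rw [w3_sq]
  have h2 : (π : ℂ) * w - π * (w.re : ℂ) = ((π * w.im : ℝ) : ℂ) * Complex.I := by
    have := Complex.re_add_im w
    push_cast
    linear_combination (π : ℂ) * (-this)
  have h3 : (π : ℂ) * w + π * (w.re : ℂ) =
      ((2 * (π * w.re) : ℝ) : ℂ) + ((π * w.im : ℝ) : ℂ) * Complex.I := by
    have := Complex.re_add_im w
    push_cast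
    linear_combination (π : ℂ) * (-this)
  rw [norm_mul, h3]
  have h4 : ‖Complex.sin ((π : ℂ) * w - π * (w.re : ℂ))‖ = |Real.sinh (π * w.im)| := by
    rw [h2, Complex.sin_mul_I, norm_mul, Complex.norm_I, mul_one, ← Complex.ofReal_sinh,
      Complex.norm_real, Real.norm_eq_abs]
  rw [h4]
  exact mul_le_mul_of_nonneg_left (w3_sin_norm _ _) (abs_nonneg _)

theorem w3_low (x g : ℝ) (hg : 0 < g) (h : ∀ k : ℤ, g ≤ |x - k|) :
    min 1 (4 * g ^ 2) ≤ Real.sin (π * x) ^ 2 := by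
  obtain ⟨k, hk⟩ : ∃ k : ℤ, |x - k| ≤ 1 / 2 := ⟨round x, abs_sub_round x⟩
  have h1 : g ≤ |x - k| := h k
  have h2 : |Real.sin (π * x)| = |Real.sin (π * (x - k))| := by
    have : π * x = π * (x - k) + k * π := by ring
    rw [this, Real.sin_add_int_mul_pi, abs_mul, abs_zpow]
    simp
  have h3 : 2 * |x - k| ≤ |Real.sin (π * (x - k))| := by
    have h4 : |Real.sin (π * (x - k))| = |Real.sin (π * |x - k|)| := by
      rcases abs_cases (x - (k : ℝ)) with ⟨h5, _⟩ | ⟨h5, _⟩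
      · rw [h5]
      · rw [h5, mul_neg, Real.sin_neg, abs_neg]
    rw [h4]
    have h0 : 0 ≤ |x - (k : ℝ)| := abs_nonneg _
    have h6 := Real.mul_le_sin (x := π * |x - k|) (by positivity) (by nlinarith [Real.pi_pos])
    have h7 : 2 / π * (π * |x - k|) = 2 * |x - k| := by
      field_simp
    rw [h7] at h6
    exact le_trans h6 (le_abs_self _)
  have h8 : 2 * g ≤ |Real.sin (π * x)| := by rw [h2]; linarith
  have h9 : (2 * g) ^ 2 ≤ |Real.sin (π * x)| ^ 2 := by gcongr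
  rw [sq_abs] at h9
  refine le_trans (min_le_right _ _) ?_
  nlinarith

theorem w3_delta (q N : ℕ) (s : ℝ) (hs : 0 < s) : ∃ δ : ℝ, 0 < δ ∧ δ ≤ 1 ∧
    N * ((1 + δ) ^ q - 1) ≤ s := by
  have hc : ContinuousAt (fun δ : ℝ => (N : ℝ) * ((1 + δ) ^ q - 1)) 0 := by fun_prop
  have h0 : (fun δ : ℝ => (N : ℝ) * ((1 + δ) ^ q - 1)) 0 < s := by simpa using hs
  have h1 := hc.eventually_lt continuousAt_const h0
  rw [Metric.eventually_nhds_iff] at h1
  obtain ⟨ε, hε, h2⟩ := h1
  refine ⟨min (ε / 2) 1, by positivity, min_le_right _ _, ?_⟩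
  have h3 : dist (min (ε / 2) 1) 0 < ε := by
    rw [Real.dist_eq, sub_zero, abs_of_pos (by positivity)]
    exact lt_of_le_of_lt (min_le_left _ _) (by linarith)
  exact (h2 h3).le

theorem w3_h (δ : ℝ) (hδ : 0 < δ) : ∃ h0 : ℝ, 0 < h0 ∧ ∀ y : ℝ, |y| ≤ 2 * h0 →
    |Real.sinh (π * y)| * (Real.cosh (π * y) + |Real.sinh (π * y)|) ≤ δ := by
  have hc : ContinuousAt (fun y : ℝ =>
      |Real.sinh (π * y)| * (Real.cosh (π * y) + |Real.sinh (π * y)|)) 0 := by
    apply Continuous.continuousAt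
    have h1 : Continuous fun y : ℝ => Real.sinh (π * y) :=
      Real.continuous_sinh.comp (continuous_const.mul continuous_id)
    have h2 : Continuous fun y : ℝ => Real.cosh (π * y) :=
      Real.continuous_cosh.comp (continuous_const.mul continuous_id)
    exact h1.abs.mul (h2.add h1.abs)
  have h0 : (fun y : ℝ =>
      |Real.sinh (π * y)| * (Real.cosh (π * y) + |Real.sinh (π * y)|)) 0 < δ := by
    simpa using hδ
  have h1 := hc.eventually_lt continuousAt_const h0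
  rw [Metric.eventually_nhds_iff] at h1
  obtain ⟨ε, hε, h2⟩ := h1
  refine ⟨ε / 4, by positivity, fun y hy => ?_⟩
  have h3 : dist y 0 < ε := by
    rw [Real.dist_eq, sub_zero]
    linarith
  exact (h2 h3).le

open Classical in
theorem st_W3 : ST_W3 := by
  intro N q g hN hg
  set s0 : ℝ := min 1 (4 * g ^ 2) with hs0
  have hs0pos : 0 < s0 := by positivity
  have hs01 : s0 ≤ 1 := min_le_left _ _
  obtain ⟨δ, hδ, hδ1, hδN⟩ := w3_delta q N (s0 ^ q / 2) (by positivity)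
  obtain ⟨h0, hh0, hh⟩ := w3_h δ hδ
  refine ⟨h0, s0 ^ q / 2, N * 2 ^ q, hh0, by positivity, ?_⟩
  intro M τ z ζ hz hζ hex
  -- factors
  have hfac : ∀ j, ‖sn (z j - ζ j) - ((Real.sin (π * (z j - ζ j).re) ^ 2 : ℝ) : ℂ)‖ ≤ δ := by
    intro j
    refine le_trans (w3_sn _) (hh _ ?_)
    rw [Complex.sub_im]
    calc |(z j).im - (ζ j).im| ≤ |(z j).im| + |(ζ j).im| := abs_sub _ _
      _ ≤ 2 * h0 := by linarith [hz j, hζ j]
  let R : Fin N → Fin q → ℝ := fun l j =>
    if τ j = Sum.inr l then Real.sin (π * (z j - ζ j).re) ^ 2 else 1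
  have hR0 : ∀ l j, 0 ≤ R l j := by
    intro l j
    show 0 ≤ (if τ j = Sum.inr l then Real.sin (π * (z j - ζ j).re) ^ 2 else 1 : ℝ)
    split_ifs
    · positivity
    · norm_num
  have hR1 : ∀ l j, R l j ≤ 1 := by
    intro l j
    show (if τ j = Sum.inr l then Real.sin (π * (z j - ζ j).re) ^ 2 else 1 : ℝ) ≤ 1
    split_ifs
    · exact Real.sin_sq_le_one _
    · exact le_refl _
  have hP : ∀ l : Fin N, ‖Pw l τ z ζ - ((∏ j, R l j : ℝ) : ℂ)‖ ≤ (1 + δ) ^ q - 1 := by
    intro l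
    have h1 := w3_prod Finset.univ (fun j => if τ j = Sum.inr l then sn (z j - ζ j) else 1)
      (fun j => ((R l j : ℝ) : ℂ)) δ hδ.le ?_ ?_
    · rw [Finset.card_univ, Fintype.card_fin] at h1
      rw [Complex.ofReal_prod]
      exact h1
    · intro j _
      show ‖(if τ j = Sum.inr l then sn (z j - ζ j) else 1) -
        (((if τ j = Sum.inr l then Real.sin (π * (z j - ζ j).re) ^ 2 else 1 : ℝ) : ℝ) : ℂ)‖ ≤ δ
      split_ifs
      · exact hfac j
      · simpa using hδ.le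
    · intro j _
      rw [Complex.norm_real, Real.norm_eq_abs, abs_of_nonneg (hR0 l j)]
      exact hR1 l j
  have hPR : ∀ l : Fin N, 0 ≤ ∏ j, R l j := fun l => Finset.prod_nonneg fun j _ => hR0 l j
  have hPR1 : ∀ l : Fin N, ∏ j, R l j ≤ 1 :=
    fun l => Finset.prod_le_one (fun j _ => hR0 l j) (fun j _ => hR1 l j)
  have hre : ∀ l : Fin N, (∏ j, R l j) - ((1 + δ) ^ q - 1) ≤ (Pw l τ z ζ).re := by
    intro l
    have h1 := Complex.abs_re_le_norm (Pw l τ z ζ - ((∏ j, R l j : ℝ) : ℂ))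
    rw [Complex.sub_re, Complex.ofReal_re] at h1
    have h2 := abs_le.1 (le_trans h1 (hP l))
    linarith [h2.1]
  have h2q : (1 + δ) ^ q ≤ 2 ^ q := by
    apply pow_le_pow_left₀ (by linarith)
    linarith
  have hnorm : ∀ l : Fin N, ‖Pw l τ z ζ‖ ≤ 2 ^ q := by
    intro l
    have h1 : ‖Pw l τ z ζ‖ ≤ ‖Pw l τ z ζ - ((∏ j, R l j : ℝ) : ℂ)‖ + ‖((∏ j, R l j : ℝ) : ℂ)‖ := by
      have := norm_add_le (Pw l τ z ζ - ((∏ j, R l j : ℝ) : ℂ)) ((∏ j, R l j : ℝ) : ℂ)
      rwa [sub_add_cancel] at this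
    have h3 : ‖((∏ j, R l j : ℝ) : ℂ)‖ ≤ 1 := by
      rw [Complex.norm_real, Real.norm_eq_abs, abs_of_nonneg (hPR l)]
      exact hPR1 l
    linarith [hP l]
  have hN1 : (1 : ℝ) ≤ N := by exact_mod_cast hN
  refine ⟨?_, ?_, ?_⟩
  · obtain ⟨i, hiM, hi⟩ := hex
    have hsum : (Sw M τ z ζ).re = ∑ l : Fin N, if (l : ℕ) < M then (Pw l τ z ζ).re else 0 := by
      unfold Sw
      rw [Complex.re_sum]
      apply Finset.sum_congr rfl
      intro l _
      split_ifs <;> simp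
    have h1pos : 0 ≤ (1 + δ) ^ q - 1 := by
      have := one_le_pow₀ (a := 1 + δ) (n := q) (by linarith)
      linarith
    have hterm : ∀ l : Fin N, (if l = i then s0 ^ q else 0) - ((1 + δ) ^ q - 1) ≤
        (if (l : ℕ) < M then (Pw l τ z ζ).re else 0) := by
      intro l
      by_cases hli : l = i
      · subst hli
        rw [if_pos rfl, if_pos hiM]
        have h3 : s0 ^ q ≤ ∏ j, R l j := by
          have h4 : s0 ^ q = ∏ _j : Fin q, s0 := by
            rw [Finset.prod_const, Finset.card_univ, Fintype.card_fin]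
          rw [h4]
          apply Finset.prod_le_prod (fun j _ => hs0pos.le)
          intro j _
          show s0 ≤ (if τ j = Sum.inr l then Real.sin (π * (z j - ζ j).re) ^ 2 else 1 : ℝ)
          split_ifs with h5
          · exact w3_low _ g hg (hi j h5)
          · exact hs01
        linarith [hre l]
      · rw [if_neg hli]
        split_ifs
        · linarith [hre l, hPR l]
        · linarith
    rw [hsum]
    have h5 := Finset.sum_le_sum (s := Finset.univ) fun l _ => hterm l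
    rw [Finset.sum_sub_distrib, Finset.sum_ite_eq' Finset.univ i, if_pos (Finset.mem_univ i),
      Finset.sum_const, Finset.card_univ, Fintype.card_fin, nsmul_eq_mul] at h5
    linarith
  · unfold Sw
    calc ‖∑ l : Fin N, if (l : ℕ) < M then Pw l τ z ζ else 0‖
        ≤ ∑ l : Fin N, ‖if (l : ℕ) < M then Pw l τ z ζ else 0‖ := norm_sum_le _ _
      _ ≤ ∑ _l : Fin N, (2 : ℝ) ^ q := by
          apply Finset.sum_le_sum
          intro l _
          split_ifs
          · exact hnorm l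
          · rw [norm_zero]
            positivity
      _ = N * 2 ^ q := by
          rw [Finset.sum_const, Finset.card_univ, Fintype.card_fin, nsmul_eq_mul]
  · intro l
    refine le_trans (hnorm l) ?_
    have : (0 : ℝ) ≤ 2 ^ q := by positivity
    nlinarith

end Pool.Agent.Helper67.DO
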